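import Pool.Agent.H44.GW.Series2
import Pool.Agent.H44.GW.Family
import Pool.Agent.H44.GW.HyperDefs

/-!
# Extensions whose kernel has an ascending series, and the Farrell-Jones conjecture

Let `C` be any class of groups with the inheritance properties proved for the class of groups satisfying the
A-theoretic Farrell-Jones conjecture with coefficients and finite wreath products: it contains the finite groups, the
infinite cyclic group and the solvable groups and is closed under isomorphism, subgroups, finite direct products, finite
free products, overgroups of finite index, directed colimits, and extensions (a group `E` with a homomorphism to a
member `Q` is a member if the preimages of the virtually cyclic subgroups of `Q` are).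

Let `N` be a normal subgroup of `E` such that `E ⧸ N` is a member, and suppose that for all normal subgroups `M < N` of
`E` there is a normal subgroup `M'` of `E` with `M < M' ≤ N` such that `M' / M` is abelian, or locally finite, or a member
of `C` on which `E` acts by locally inner automorphisms. Then `E` is a member. The condition holds if `N` has an ascending
(transfinite) series of normal subgroups of `E` with abelian or locally finite factors.
-/

set_option autoImplicit false

namespace Pool.Agent.H44.Results.HyperKernels

open Pool.Agent.H44.GW

theorem result (C : (G : Type) → [Group G] → Prop) (hC : ClosedClass C)
    (hsol : ∀ (G : Type) [Group G], Group.IsSolvable G → C G)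
    (E : Type) [Group E] (N : Subgroup E) [N.Normal] (hN : IsHyper C N) (hQ : C (E ⧸ N)) :
    C E :=
  hyper2_mem hC.inheritsExt hsol N hN hQ

end Pool.Agent.H44.Results.HyperKernels
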